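import Pool.Agent.E8helper8.EC.Main
import Pool.Agent.E8helper8.EC.Null
import Pool.Agent.E8helper99.EC.Real
import Pool.Agent.E8helper91.EC.Bdry
import Pool.Agent.E8helper36.EC.Inj
import Pool.Agent.E8helper36.EC.Ff
import Pool.Agent.E8helper36.EC.Heis
import Pool.Agent.E8helper5.EC.Skel
import Pool.Agent.E8helper68.EC.Glue
import Pool.Agent.E8helper77.EC.Ext
import Pool.Agent.E8helper52.EC.Cont
import Pool.Agent.E8helper9.EC.TW
import Pool.Agent.E8helper73.EC.GG
import Pool.Agent.E8helper81.EC.Circle

/-!
# `E_com G` can be a finite complex although the centre of `G` has infinite index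

The answer to the question is negative. Let `V` be a free abelian group of countable rank with a
symplectic form `ω` and a symplectic basis, and let `G` be the Heisenberg group of the pairs `(a, s)`,
`a ∈ V`, `s ∈ ℤ`, with `(a, s) (b, t) = (a + b, s + t + ω(a, b))`. Its centre is `{(0, s)}` and has
infinite index, but `E_com G` is homotopy equivalent to the circle.

Proof. Put `u(g, h) = t - s - ω(a, b)` for `g = (a, s)`, `h = (b, t)`; this is the second coordinate of
`g⁻¹ h`. A tuple is a simplex of `E_com G` iff `u(g_i, g_j) + u(g_j, g_k) = u(g_i, g_k)` for all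
`i, j, k`. So `u` is a cocycle on `E_com G`; it gives a map `f : |E_com G| → ℝ / ℤ`, and a covering
`|X| → |E_com G|` with group `ℤ`, where `X` is the simplicial set of the tuples `(g_i, m_i)` with
`m_j - m_i = u(g_i, g_j)` for all `i, j`. The part of `|X|` with vertices in a finite set `F` is
null-homotopic in a similar larger part: move every vertex `v = ((a, s), m)` of `F` to the adjacent
vertex `((a + e_v, s), m)`, where the `e_v` are new basis vectors which are orthogonal to each other and
to `F`; after that all vertices have a common neighbour `((b, 0), 0)`, since the equations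
`ω(a + e_v, b) = m - s` can be solved. By induction over the skeleta one gets a `ℤ`-equivariant homotopy
between the identity of `|X|` and a map which factors through the line `ℝ`; modulo `ℤ` this shows that
`f` is a homotopy equivalence.
-/

set_option autoImplicit false

open CategoryTheory Simplicial Opposite

namespace Pool.Agent.Results.MP_510dd6_gt.HeisenbergCircleH8

/-- `E_com G`: the simplicial set whose `n`-simplices are the tuples `(g 0, ..., g n)` of elements of
`G` all of which lie in one left coset `x A` of an abelian subgroup `A` of `G`. Faces delete entries,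
degeneracies repeat entries: a monotone map `α` sends `g` to `g ∘ α`. -/
def Ecom (G : Type) [Group G] : SSet.{0} where
  obj n := {g : Fin (n.unop.len + 1) → G // ∃ (x : G) (A : Subgroup G),
    (∀ a ∈ A, ∀ b ∈ A, a * b = b * a) ∧ ∀ i, x⁻¹ * g i ∈ A}
  map f := ↾fun g => ⟨g.1 ∘ f.unop.toOrderHom, g.2.imp fun _ h => h.imp fun _ h =>
    ⟨h.1, fun _ => h.2 _⟩⟩

open Pool.Agent.E8helper8.EC

/-- the isomorphism with the complex `E(u)` -/
def iso (hH : ∀ (n : ℕ) (g : Fin (n + 1) → Heis), IsCommTuple Heis n g ↔ (cocClass uH).mem n g) :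
    Ecom Heis ≅ Eu uH where
  hom := { app := fun n => ↾fun g => ⟨g.1, (hH n.unop.len g.1).1 g.2⟩ }
  inv := { app := fun n => ↾fun g => ⟨g.1, (hH n.unop.len g.1).2 g.2⟩ }

theorem homotopy_equiv
    (hH : ∀ (n : ℕ) (g : Fin (n + 1) → Heis), IsCommTuple Heis n g ↔ (cocClass uH).mem n g)
    (h : Nonempty (ContinuousMap.HomotopyEquiv (Rl (Eu uH)) (AddCircle (1 : ℝ)))) :
    Nonempty (ContinuousMap.HomotopyEquiv (SSet.toTop.obj (Ecom Heis)) (AddCircle (1 : ℝ))) := by
  obtain ⟨h⟩ := h
  have h1 : (SSet.toTop.obj (Ecom Heis) : TopCat) ≃ₜ Rl (Eu uH) :=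
    TopCat.homeoOfIso (SSet.toTop.mapIso (iso hH))
  exact ⟨h1.toHomotopyEquiv.trans h⟩

/-- There is a group `G` such that the centre of `G` has infinite index in `G` and the geometric
realization of `E_com G` is homotopy equivalent to the circle, and to a space `Y` which is a finite
CW-complex (so `E_com G` has the homotopy type of a finite CW-complex). -/
theorem result : ∃ (G : Type) (_ : Group G),
    ¬ (Subgroup.center G).FiniteIndex ∧
    Nonempty (ContinuousMap.HomotopyEquiv (SSet.toTop.obj (Ecom G)) Circle) ∧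
    ∃ (Y : Type) (_ : TopologicalSpace Y) (_ : T2Space Y)
      (_ : Topology.CWComplex (Set.univ : Set Y)),
      Topology.CWComplex.Finite (Set.univ : Set Y) ∧
      Nonempty (ContinuousMap.HomotopyEquiv (SSet.toTop.obj (Ecom G)) Y) := by
  have hR := Pool.Agent.E8helper99.EC.t_REAL
  have hB := Pool.Agent.E8helper91.EC.t_BDRY
  have hI := Pool.Agent.E8helper36.EC.t_INJ
  have hS := Pool.Agent.E8helper5.EC.t_SKEL
  have hG := Pool.Agent.E8helper68.EC.t_GLUE
  have hE := Pool.Agent.E8helper77.EC.t_EXT
  have hF := Pool.Agent.E8helper36.EC.t_FF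
  have hGG := Pool.Agent.E8helper73.EC.t_GG
  have hTW := Pool.Agent.E8helper9.EC.t_TW
  have hN : NULL uH := t_NULL hR Pool.Agent.E8helper52.EC.t_CONT
  have hH := Pool.Agent.E8helper36.EC.t_HEIS
  have h := homotopy_equiv hH.2 (t_MAIN hR hTW hB hI hS hG hE hF hGG Heis uH ⟨1⟩ hH.1 hN)
  obtain ⟨Y, tY, t2, cw, hfin, ⟨e⟩⟩ := Pool.Agent.E8helper81.EC.t_CWC
  obtain ⟨h⟩ := h
  have h2 : AddCircle (1 : ℝ) ≃ₜ Circle := AddCircle.homeomorphCircle one_ne_zero
  exact ⟨Heis, inferInstance, Pool.Agent.E8helper36.EC.t_CTR, ⟨h.trans h2.toHomotopyEquiv⟩,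
    Y, tY, t2, cw, hfin, ⟨h.trans e.symm.toHomotopyEquiv⟩⟩

end Pool.Agent.Results.MP_510dd6_gt.HeisenbergCircleH8
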